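import Pool.Agent.Helper75.OE.GoalsA

/-!
# Project OE: packet FLM (the flip keeps the edges of the side matched)
-/

namespace Pool.Agent.Helper22.OE

open Pool.Agent.Helper73.OE Pool.Agent.Helper73.OE.Sys Pool.Agent.Helper75.OE

theorem flm_dir (h2 : A_FREC) {H S L : Type} [Group H] (X : Sys H S L) (O : Edges H S)
    (f : Cfg H S L) : ∀ (n : ℕ) (v : H) (p : S) (y : L), y ≠ f v p → X.MA O (X.Sd v p) f →
    ∀ z r, z ∈ X.Sd v p → X.nb z r ∈ X.Sd v p → O z r → X.dist v z = n →
      X.dist v (X.nb z r) = X.dist v z + 1 → X.Mt (X.flip O v p y f) z r := by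
  classical
  intro n
  induction n with
  | zero =>
    intro v p y hy hM z r hz hzr hO hd hd'
    have hzv : z = v := ((X.dist_eq_zero v z).1 hd).symm
    subst hzv
    obtain ⟨e1, e2, e3, e4⟩ := h2 H S L X O z p y f hy hM
    have hfs : f z ((f z).symm y) = y := (f z).apply_symm_apply y
    have hrp : r ≠ p := by
      rintro rfl
      exact X.nb_notMem_Sd z r hzr
    have hrx : f z r ≠ f z p := fun h => hrp ((f z).injective h)
    have hsp : (f z).symm y ≠ p := by
      intro h
      rw [h] at hfs
      exact hy hfs.symm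
    unfold Mt
    by_cases hrs : r = (f z).symm y
    · subst hrs
      have hsub := X.branch_subset (v := z) hsp
      have hm := hM z _ hz hzr hO
      unfold Mt at hm
      rw [hfs] at hm
      have hy' : X.tau (f z p) ≠ f (X.nb z ((f z).symm y)) (X.bar ((f z).symm y)) := by
        rw [hm]
        intro h
        apply hy
        rw [← X.tau_tau y, ← h, X.tau_tau]
      have hM' : X.MA O (X.Sd (X.nb z ((f z).symm y)) (X.bar ((f z).symm y))) f :=
        fun a b ha hb hab => hM a b (hsub ha) (hsub hb) hab
      obtain ⟨g1, -, -, -⟩ := h2 H S L X O _ _ _ f hy' hM'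
      rw [e3 hO _ (X.nb_ne z _), g1, e1]
      simp only [Equiv.trans_apply, Equiv.swap_apply_left, hfs, Equiv.swap_apply_right]
    · have hry : f z r ≠ y := by
        intro h
        apply hrs
        rw [← h, Equiv.symm_apply_apply]
      have hg : X.flip O z p y f (X.nb z r) = f (X.nb z r) := by
        by_cases hOs : O z ((f z).symm y)
        · rw [e3 hOs _ (X.nb_ne z r)]
          have hsub := X.branch_subset (v := z) hsp
          have hv' : X.nb z ((f z).symm y) ∈ X.Sd z p := hsub (X.self_mem_Sd _ _)
          have hm := hM z _ hz hv' hOs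
          unfold Mt at hm
          rw [hfs] at hm
          have hy' : X.tau (f z p) ≠ f (X.nb z ((f z).symm y)) (X.bar ((f z).symm y)) := by
            rw [hm]
            intro h
            apply hy
            rw [← X.tau_tau y, ← h, X.tau_tau]
          have hM' : X.MA O (X.Sd (X.nb z ((f z).symm y)) (X.bar ((f z).symm y))) f :=
            fun a b ha hb hab => hM a b (hsub ha) (hsub hb) hab
          obtain ⟨-, g2, -, -⟩ := h2 H S L X O _ _ _ f hy' hM'
          apply g2
          intro hin
          exact hrs (X.branch_unique (X.self_mem_Sd _ _) hin)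
        · exact e4 hOs _ (X.nb_ne z r)
      rw [hg, e1]
      have hm := hM z r hz hzr hO
      unfold Mt at hm
      rw [hm, Equiv.trans_apply, Equiv.swap_apply_of_ne_of_ne hrx hry]
  | succ n ih =>
    intro v p y hy hM z r hz hzr hO hd hd'
    obtain ⟨e1, e2, e3, e4⟩ := h2 H S L X O v p y f hy hM
    have hzv : z ≠ v := by
      rintro rfl
      rw [X.dist_self] at hd
      omega
    have hzrv : X.nb z r ≠ v := by
      intro h
      rw [h, X.dist_self] at hd'
      omega
    have hfs : f v ((f v).symm y) = y := (f v).apply_symm_apply y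
    have hsp : (f v).symm y ≠ p := by
      intro h
      rw [h] at hfs
      exact hy hfs.symm
    have hm0 := hM z r hz hzr hO
    by_cases hOs : O v ((f v).symm y)
    · have hsub := X.branch_subset (v := v) hsp
      have hv' : X.nb v ((f v).symm y) ∈ X.Sd v p := hsub (X.self_mem_Sd _ _)
      have hm := hM v _ (X.self_mem_Sd v p) hv' hOs
      unfold Mt at hm
      rw [hfs] at hm
      have hy' : X.tau (f v p) ≠ f (X.nb v ((f v).symm y)) (X.bar ((f v).symm y)) := by
        rw [hm]
        intro h
        apply hy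
        rw [← X.tau_tau y, ← h, X.tau_tau]
      have hM' : X.MA O (X.Sd (X.nb v ((f v).symm y)) (X.bar ((f v).symm y))) f :=
        fun a b ha hb hab => hM a b (hsub ha) (hsub hb) hab
      obtain ⟨-, g2, -, -⟩ := h2 H S L X O _ _ _ f hy' hM'
      unfold Mt
      rw [e3 hOs z hzv, e3 hOs _ hzrv]
      by_cases hz1 : z ∈ X.Sd (X.nb v ((f v).symm y)) (X.bar ((f v).symm y))
      · by_cases hz2 : X.nb z r ∈ X.Sd (X.nb v ((f v).symm y)) (X.bar ((f v).symm y))
        · have k1 := X.mem_Sd_bar.1 hz1
          have k2 := X.mem_Sd_bar.1 hz2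
          rw [X.dist_comm z v, X.dist_comm z (X.nb v _)] at k1
          rw [X.dist_comm (X.nb z r) v, X.dist_comm (X.nb z r) (X.nb v _)] at k2
          exact ih _ _ _ hy' hM' z r hz1 hz2 hO (by omega) (by omega)
        · exfalso
          obtain ⟨a1, a2⟩ := X.Sd_edge hz1 hz2
          apply hzrv
          rw [a1, a2, X.nb_bar]
      · by_cases hz2 : X.nb z r ∈ X.Sd (X.nb v ((f v).symm y)) (X.bar ((f v).symm y))
        · exfalso
          have hback : X.nb (X.nb z r) (X.bar r) = z := X.nb_bar z r
          obtain ⟨a1, a2⟩ := X.Sd_edge hz2 (by rw [hback]; exact hz1)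
          apply hzv
          rw [← hback, a1, a2, X.nb_bar]
        · rw [g2 z hz1, g2 _ hz2]
          exact hm0
    · unfold Mt
      rw [e4 hOs z hzv, e4 hOs _ hzrv]
      exact hm0

theorem flm (h2 : A_FREC) : A_FLM := by
  intro H S L _ X O v p y f hS hy hM z r hz hzr hO
  rcases X.dist_nb v z r with h | h
  · exact flm_dir h2 X O f _ v p y hy hM z r hz hzr hO rfl h
  · have hback : X.nb (X.nb z r) (X.bar r) = z := X.nb_bar z r
    have hm := flm_dir h2 X O f _ v p y hy hM (X.nb z r) (X.bar r) hzr (by rw [hback]; exact hz)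
      ((hS z r).1 hO) rfl (by rw [hback]; exact h)
    unfold Mt at hm ⊢
    rw [hback, X.bar_bar] at hm
    rw [hm, X.tau_tau]

end Pool.Agent.Helper22.OE
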